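import Pool.Agent.Helper82.MAH.Spec

/-!
# MAH, part CMP: comparison of the projections
-/

set_option autoImplicit false

noncomputable section

open MeasureTheory Filter Topology Set
open scoped ENNReal InnerProductSpace

namespace Pool.Agent.Helper97.MAH.CMP

open Helper82.MAH

variable {d : ℕ}

lemma e_nonneg (K : CC d) {v : E d} (hv : v ∈ K.C) : 0 ≤ ⟪K.e, v⟫_ℝ := by
  rcases eq_or_ne v 0 with rfl | h
  · simp
  · exact (K.pos v hv h).le

lemma cl_mono (K : CC d) {a b M : ℝ} (ha : a ≤ M) (hb : b ≤ M) {ψ : E d → ℝ} (h : Cl K a b ψ) :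
    Cl K M M ψ := by
  intro x v hv
  have he := e_nonneg K hv
  obtain ⟨h1, h2⟩ := h x v hv
  exact ⟨h1.trans (by nlinarith), h2.trans (by nlinarith)⟩

lemma cl_min (K : CC d) {a b : ℝ} {f g : E d → ℝ} (hf : Cl K a b f) (hg : Cl K a b g) :
    Cl K a b (fun x => min (f x) (g x)) := by
  intro x v hv
  obtain ⟨h1, h2⟩ := hf x v hv
  obtain ⟨h3, h4⟩ := hg x v hv
  constructor
  · rcases min_choice (f x) (g x) with h | h
    · show min (f (x + v)) (g (x + v)) ≤ min (f x) (g x) + _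
      rw [h]; exact (min_le_left _ _).trans h1
    · show min (f (x + v)) (g (x + v)) ≤ min (f x) (g x) + _
      rw [h]; exact (min_le_right _ _).trans h3
  · rcases min_choice (f x) (g x) with h | h
    · show min (f (x - v)) (g (x - v)) ≤ min (f x) (g x) + _
      rw [h]; exact (min_le_left _ _).trans h2
    · show min (f (x - v)) (g (x - v)) ≤ min (f x) (g x) + _
      rw [h]; exact (min_le_right _ _).trans h4

lemma cl_max (K : CC d) {a b : ℝ} {f g : E d → ℝ} (hf : Cl K a b f) (hg : Cl K a b g) :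
    Cl K a b (fun x => max (f x) (g x)) := by
  intro x v hv
  obtain ⟨h1, h2⟩ := hf x v hv
  obtain ⟨h3, h4⟩ := hg x v hv
  have l1 := le_max_left (f x) (g x)
  have l2 := le_max_right (f x) (g x)
  constructor
  · exact max_le (by linarith) (by linarith)
  · exact max_le (by linarith) (by linarith)

lemma cl_mid (K : CC d) {a b : ℝ} {f g : E d → ℝ} (hf : Cl K a b f) (hg : Cl K a b g) :
    Cl K a b (fun x => (f x + g x) / 2) := by
  intro x v hv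
  obtain ⟨h1, h2⟩ := hf x v hv
  obtain ⟨h3, h4⟩ := hg x v hv
  constructor
  · show (f (x + v) + g (x + v)) / 2 ≤ (f x + g x) / 2 + _
    linarith
  · show (f (x - v) + g (x - v)) / 2 ≤ (f x + g x) / 2 + _
    linarith

lemma sg_of (K : CC d) {a b c : ℝ} {f : E d → ℝ} (hf : Cl K a b f)
    (h : ∀ x, nrm K 1 1 x - c ≤ f x) : SG K f :=
  ⟨⟨max a b, cl_mono K (le_max_left _ _) (le_max_right _ _) hf⟩, c, h⟩

lemma exp_mid {s t : ℝ} :
    0 ≤ (Real.exp (-s) + Real.exp (-t)) / 2 - Real.exp (-((s + t) / 2)) ∧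
      ((Real.exp (-s) + Real.exp (-t)) / 2 - Real.exp (-((s + t) / 2)) = 0 → s = t) := by
  have h : (Real.exp (-s) + Real.exp (-t)) / 2 - Real.exp (-((s + t) / 2)) =
      (Real.exp (-(s / 2)) - Real.exp (-(t / 2))) ^ 2 / 2 := by
    have h1 : Real.exp (-s) = Real.exp (-(s / 2)) * Real.exp (-(s / 2)) := by
      rw [← Real.exp_add]; ring_nf
    have h2 : Real.exp (-t) = Real.exp (-(t / 2)) * Real.exp (-(t / 2)) := by
      rw [← Real.exp_add]; ring_nf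
    have h3 : Real.exp (-((s + t) / 2)) = Real.exp (-(s / 2)) * Real.exp (-(t / 2)) := by
      rw [← Real.exp_add]; ring_nf
    rw [h1, h2, h3]; ring
  rw [h]
  refine ⟨by positivity, fun h0 => ?_⟩
  have h1 : Real.exp (-(s / 2)) - Real.exp (-(t / 2)) = 0 := by
    have : (Real.exp (-(s / 2)) - Real.exp (-(t / 2))) ^ 2 = 0 := by linarith
    exact pow_eq_zero_iff (two_ne_zero) |>.1 this
  have h2 := Real.exp_injective (sub_eq_zero.1 h1)
  linarith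

lemma int3 {A B D F : E d → ℝ} (hA : Integrable A) (hB : Integrable B) (hD : Integrable D)
    (h : ∀ x, F x = (A x + B x) / 2 - D x) :
    ∫ x, F x = ((∫ x, A x) + ∫ x, B x) / 2 - ∫ x, D x := by
  have h1 : ∫ x, ((A x + B x) / 2 - D x) = (∫ x, (A x + B x) / 2) - ∫ x, D x :=
    integral_sub ((hA.add hB).div_const 2) hD
  have h2 : ∫ x, (A x + B x) / 2 = (∫ x, (A x + B x)) / 2 := integral_div _ _
  have h3 : ∫ x, (A x + B x) = (∫ x, A x) + ∫ x, B x := integral_add hA hB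
  rw [← h3, ← h2, ← h1]
  exact integral_congr_ae (Eventually.of_forall h)

lemma int4 {A B A' B' : E d → ℝ} (hA : Integrable A) (hB : Integrable B) (hA' : Integrable A')
    (hB' : Integrable B') (h : ∀ x, A x + B x ≤ A' x + B' x) :
    (∫ x, A x) + ∫ x, B x ≤ (∫ x, A' x) + ∫ x, B' x := by
  have h1 : ∫ x, (A x + B x) = (∫ x, A x) + ∫ x, B x := integral_add hA hB
  have h2 : ∫ x, (A' x + B' x) = (∫ x, A' x) + ∫ x, B' x := integral_add hA' hB'
  rw [← h1, ← h2]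
  exact integral_mono (hA.add hB) (hA'.add hB') h

/-- comparison -/
theorem main (hCLS : S_CLS) (hITG : S_ITG) : S_CMP := by
  intro d K a b β₁ β₂ ψ₁ ψ₂ ha hb hβ₁ hβ₂ hβ hψ₁ hψ₂
  obtain ⟨hS1, hC1, hm1⟩ := hψ₁
  obtain ⟨hS2, hC2, hm2⟩ := hψ₂
  obtain ⟨-, c1, hc1⟩ := hS1
  obtain ⟨-, c2, hc2⟩ := hS2
  -- the class `K a b` with a lower bound
  have key : ∀ f : E d → ℝ, Cl K a b f → (∀ x, nrm K 1 1 x - max c1 c2 ≤ f x) →
      Integrable (fun x => Real.exp (-f x)) ∧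
      Integrable (fun x => Real.exp (-β₁ x) * f x) ∧
      Integrable (fun x => Real.exp (-β₂ x) * f x) ∧ Continuous f := by
    intro f hf hc
    have hM := cl_mono K (le_max_left a b) (le_max_right a b) hf
    refine ⟨(hITG d K f f _ (sg_of K hf hc) hM).1, (hITG d K β₁ f _ hβ₁ hM).2,
      (hITG d K β₂ f _ hβ₂ hM).2, ?_⟩
    obtain ⟨c, hc0, hcl⟩ := (hCLS d K a b (by linarith) (by linarith)).2.2 f hf
    have : LipschitzWith (Real.toNNReal c) f := by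
      refine LipschitzWith.of_dist_le_mul fun x y => ?_
      rw [Real.dist_eq, dist_eq_norm, Real.coe_toNNReal c hc0.le]
      exact hcl x y
    exact this.continuous
  have hb1 : ∀ x, nrm K 1 1 x - max c1 c2 ≤ ψ₁ x := fun x =>
    le_trans (by linarith [le_max_left c1 c2]) (hc1 x)
  have hb2 : ∀ x, nrm K 1 1 x - max c1 c2 ≤ ψ₂ x := fun x =>
    le_trans (by linarith [le_max_right c1 c2]) (hc2 x)
  have kψ₁ := key ψ₁ hC1 hb1
  have kψ₂ := key ψ₂ hC2 hb2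
  have cmin := cl_min K hC1 hC2
  have cmax := cl_max K hC1 hC2
  have bmin : ∀ x, nrm K 1 1 x - max c1 c2 ≤ min (ψ₁ x) (ψ₂ x) := fun x =>
    le_min (hb1 x) (hb2 x)
  have bmax : ∀ x, nrm K 1 1 x - max c1 c2 ≤ max (ψ₁ x) (ψ₂ x) := fun x =>
    (hb1 x).trans (le_max_left _ _)
  have kmin := key _ cmin bmin
  have kmax := key _ cmax bmax
  have i1 := hm1 _ cmin kmin.1
  have i2 := hm2 _ cmax kmax.1
  -- the sum
  have hsum : Phi β₁ (fun x => min (ψ₁ x) (ψ₂ x)) + Phi β₂ (fun x => max (ψ₁ x) (ψ₂ x)) ≤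
      Phi β₁ ψ₁ + Phi β₂ ψ₂ := by
    refine int4 (kmin.2.1.add kmin.1) (kmax.2.2.1.add kmax.1) (kψ₁.2.1.add kψ₁.1)
      (kψ₂.2.2.1.add kψ₂.1) fun x => ?_
    show Real.exp (-β₁ x) * min (ψ₁ x) (ψ₂ x) + Real.exp (-min (ψ₁ x) (ψ₂ x)) +
      (Real.exp (-β₂ x) * max (ψ₁ x) (ψ₂ x) + Real.exp (-max (ψ₁ x) (ψ₂ x))) ≤
      Real.exp (-β₁ x) * ψ₁ x + Real.exp (-ψ₁ x) + (Real.exp (-β₂ x) * ψ₂ x + Real.exp (-ψ₂ x))
    rcases le_total (ψ₁ x) (ψ₂ x) with h | h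
    · rw [min_eq_left h, max_eq_right h]
    · rw [min_eq_right h, max_eq_left h]
      have he : Real.exp (-β₂ x) ≤ Real.exp (-β₁ x) := Real.exp_le_exp.2 (neg_le_neg (hβ x))
      nlinarith
  have heq : Phi β₁ (fun x => min (ψ₁ x) (ψ₂ x)) = Phi β₁ ψ₁ := by linarith
  -- the midpoint
  have cmid := cl_mid K cmin hC1
  have bmid : ∀ x, nrm K 1 1 x - max c1 c2 ≤ (min (ψ₁ x) (ψ₂ x) + ψ₁ x) / 2 := fun x => by
    have := bmin x
    have := hb1 x
    linarith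
  have kmid := key _ cmid bmid
  have i3 := hm1 _ cmid kmid.1
  have hint : Integrable (fun x => (Real.exp (-min (ψ₁ x) (ψ₂ x)) + Real.exp (-ψ₁ x)) / 2 -
      Real.exp (-((min (ψ₁ x) (ψ₂ x) + ψ₁ x) / 2))) :=
    ((kmin.1.add kψ₁.1).div_const 2).sub kmid.1
  have hzero : ∫ x, ((Real.exp (-min (ψ₁ x) (ψ₂ x)) + Real.exp (-ψ₁ x)) / 2 -
      Real.exp (-((min (ψ₁ x) (ψ₂ x) + ψ₁ x) / 2))) ≤ 0 := by
    have e1 : ∫ x, ((Real.exp (-min (ψ₁ x) (ψ₂ x)) + Real.exp (-ψ₁ x)) / 2 -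
        Real.exp (-((min (ψ₁ x) (ψ₂ x) + ψ₁ x) / 2))) =
        (Phi β₁ (fun x => min (ψ₁ x) (ψ₂ x)) + Phi β₁ ψ₁) / 2 -
          Phi β₁ (fun x => (min (ψ₁ x) (ψ₂ x) + ψ₁ x) / 2) := by
      refine int3 (kmin.2.1.add kmin.1) (kψ₁.2.1.add kψ₁.1) (kmid.2.1.add kmid.1) fun x => ?_
      show (Real.exp (-min (ψ₁ x) (ψ₂ x)) + Real.exp (-ψ₁ x)) / 2 -
        Real.exp (-((min (ψ₁ x) (ψ₂ x) + ψ₁ x) / 2)) =
        (Real.exp (-β₁ x) * min (ψ₁ x) (ψ₂ x) + Real.exp (-min (ψ₁ x) (ψ₂ x)) +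
          (Real.exp (-β₁ x) * ψ₁ x + Real.exp (-ψ₁ x))) / 2 -
        (Real.exp (-β₁ x) * ((min (ψ₁ x) (ψ₂ x) + ψ₁ x) / 2) +
          Real.exp (-((min (ψ₁ x) (ψ₂ x) + ψ₁ x) / 2)))
      ring
    rw [e1, heq]
    linarith
  have hz : (fun x => (Real.exp (-min (ψ₁ x) (ψ₂ x)) + Real.exp (-ψ₁ x)) / 2 -
      Real.exp (-((min (ψ₁ x) (ψ₂ x) + ψ₁ x) / 2))) = fun _ => 0 := by
    have h0 : ∫ x, ((Real.exp (-min (ψ₁ x) (ψ₂ x)) + Real.exp (-ψ₁ x)) / 2 -
      Real.exp (-((min (ψ₁ x) (ψ₂ x) + ψ₁ x) / 2))) = 0 :=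
      le_antisymm hzero (integral_nonneg fun x => exp_mid.1)
    have h1 := (integral_eq_zero_iff_of_nonneg (fun x => exp_mid.1) hint).1 h0
    refine (Continuous.ae_eq_iff_eq volume ?_ continuous_const).1 h1
    have c1 := kmin.2.2.2
    have c2 := kψ₁.2.2.2
    have c3 := kmid.2.2.2
    exact ((((c1.neg).rexp).add ((c2.neg).rexp)).div_const 2).sub ((c3.neg).rexp)
  intro x
  have := exp_mid.2 (congrFun hz x)
  have h2 := min_le_right (ψ₁ x) (ψ₂ x)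
  rw [this] at h2
  exact h2

end Pool.Agent.Helper97.MAH.CMP
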